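import Mathlib
import Pool.Agent.H78.Farbman.Diag

set_option autoImplicit false

namespace Pool.Agent.Results.MP_0b7af4_al.AlmostAllPrimeDenominators

open Filter Topology Pool.Agent.H78.Farbman

open Classical in
/-- There is a function `S` tending to infinity such that, for almost all primes `p` (relative
density one among the primes), every rational number `s / p` with `|s| ≤ S p` is a point of
non-freeness. In particular, for every fixed numerator `s`, the rational `s / p` belongs to the
set `X` of non-freeness for almost all primes `p`. -/
theorem result : ∃ S : ℕ → ℕ, Tendsto S atTop atTop ∧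
    Tendsto (fun N : ℕ =>
      (((Finset.Icc 1 N).filter (fun p : ℕ => p.Prime ∧
        ∀ s : ℤ, |s| ≤ (S p : ℤ) → IsRelationNumber ((s : ℚ) / (p : ℚ)))).card : ℝ) /
      (((Finset.Icc 1 N).filter (fun p : ℕ => p.Prime)).card : ℝ)) atTop (𝓝 1) :=
  uniform

end Pool.Agent.Results.MP_0b7af4_al.AlmostAllPrimeDenominators
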