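import Mathlib
import Pool.Agent.Lib.H73F.J3

set_option autoImplicit false

namespace Pool.Agent.Results.MP_0b7af4_al.EveryNumerator

open Pool.Agent.H78.Farbman

/-- (1) For every integer `s` and every natural number `r ≥ 2 exp (|s| / 8)` the rational number
`s / r` is a point of non-freeness; in particular, for every fixed numerator `s` all but finitely
many of the rationals `s / r` belong to the set `X`.

(2) Every rational number `q` with `-4 < q < 4` whose numerator (in lowest terms) has absolute
value at most `34` is a point of non-freeness. -/
theorem result :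
    (∀ (s : ℤ) (r : ℕ), 2 * Real.exp (|(s : ℝ)| / 8) ≤ (r : ℝ) →
      IsRelationNumber ((s : ℚ) / (r : ℚ))) ∧
    (∀ q : ℚ, -4 < q → q < 4 → |q.num| ≤ 34 → IsRelationNumber q) :=
  ⟨Pool.Agent.H73F.large_den, Pool.Agent.H73F.small_num⟩

end Pool.Agent.Results.MP_0b7af4_al.EveryNumerator
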